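import Pool.Agent.Run7.h636.LT.Iface

/-! Piece EUL of the project LT (helper636). -/

set_option autoImplicit false

open scoped InnerProductSpace Topology
open Polynomial

noncomputable section

namespace Run7.h329.LT.EUL

open Pool.Agent.N496.LT Pool.Agent.TH630.Tor Pool.Agent.Helper993.FK Pool.Agent.Helper993.Delta
open Run7.h636.LT

section general
variable {H : Type} [NormedAddCommGroup H] [InnerProductSpace ℂ H] [CompleteSpace H] {r : ℕ}

/-- `tr (2 b(T) + q)`. -/
theorem traceVal_affine (e : Fin r → H) (he : ∀ i, ‖e i‖ = 1) (T : H →L[ℂ] H) (hT : 0 ≤ T) (δ q : ℝ) :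
    traceVal e T (fun x => 2 * bump δ x + q) = 2 * traceVal e T (bump δ) + r * q := by
  have hsa : IsSelfAdjoint T := IsSelfAdjoint.of_nonneg hT
  have hb := bump_continuous δ
  have h1 : cfc (fun x => 2 * bump δ x + q) T = (2 : ℝ) • cfc (bump δ) T + algebraMap ℝ (H →L[ℂ] H) q := by
    rw [cfc_add (R := ℝ) (a := T) (f := fun x => 2 * bump δ x) (g := fun _ => q)
      (by fun_prop) (by fun_prop), cfc_const (R := ℝ) q T, cfc_const_mul (R := ℝ) 2 (bump δ) T (by fun_prop)]
  have h2 : ∀ i, (⟪e i, cfc (fun x => 2 * bump δ x + q) T (e i)⟫_ℂ).re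
      = 2 * (⟪e i, cfc (bump δ) T (e i)⟫_ℂ).re + q := by
    intro i
    have h3 : (cfc (fun x => 2 * bump δ x + q) T) (e i)
        = (2 : ℂ) • cfc (bump δ) T (e i) + (q : ℂ) • e i := by
      rw [h1, Algebra.algebraMap_eq_smul_one]
      change (2 : ℝ) • (cfc (bump δ) T) (e i) + (q : ℝ) • (e i) = _
      rw [← Complex.coe_smul, ← Complex.coe_smul]
      norm_num
    rw [h3, inner_add_right, inner_smul_right, inner_smul_right, inner_self_eq_norm_sq_to_K, he i]
    simp
  unfold traceVal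
  simp_rw [h2]
  rw [Finset.sum_add_distrib, ← Finset.mul_sum]
  simp

theorem pow_le_affine {K δ : ℝ} (hK : 0 < K) (hδ : 0 < δ) (m : ℕ) {x : ℝ} (hx : x ∈ Set.Icc 0 K) :
    (1 - x / K) ^ (2 * m) ≤ 2 * bump δ x + (max 0 (1 - δ / (2 * K))) ^ (2 * m) := by
  have h0 : 0 ≤ 1 - x / K := by
    rw [sub_nonneg, div_le_one hK]
    exact hx.2
  have h1 : 1 - x / K ≤ 1 := by
    have : 0 ≤ x / K := div_nonneg hx.1 hK.le
    linarith
  have hm0 : 0 ≤ max 0 (1 - δ / (2 * K)) := le_max_left _ _
  rcases le_total x (δ / 2) with h | h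
  · have h2 : 1 / 2 ≤ bump δ x := by
      unfold bump
      apply le_max_of_le_right
      apply le_min (by norm_num)
      have : x / δ ≤ 1 / 2 := by
        rw [div_le_iff₀ hδ]
        linarith
      linarith
    have h3 : (1 - x / K) ^ (2 * m) ≤ 1 := pow_le_one₀ h0 h1
    have := pow_nonneg hm0 (2 * m)
    linarith
  · have h2 : 1 - x / K ≤ max 0 (1 - δ / (2 * K)) := by
      apply le_max_of_le_right
      have : δ / (2 * K) ≤ x / K := by
        rw [div_le_div_iff₀ (by positivity) hK]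
        nlinarith
      linarith
    have := pow_le_pow_left₀ h0 h2 (2 * m)
    have := bump_nonneg δ x
    linarith

/-- The traces of the powers of `1 - T / K` tend to zero. -/
theorem tendsto_trace (e : Fin r → H) (he : ∀ i, ‖e i‖ = 1) (T : H →L[ℂ] H) (hT : 0 ≤ T)
    (hinj : ∀ v, T v = 0 → v = 0) {K : ℝ} (hK : 0 < K) (hTK : ‖T‖ ≤ K) :
    Filter.Tendsto (fun m : ℕ => traceVal e T (fun x => (1 - x / K) ^ (2 * m))) Filter.atTop (𝓝 0) := by
  have hpos : ∀ m : ℕ, 0 ≤ traceVal e T (fun x => (1 - x / K) ^ (2 * m)) := by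
    intro m
    unfold traceVal
    apply Finset.sum_nonneg
    intro i _
    have h1 : (0 : H →L[ℂ] H) ≤ cfc (fun x : ℝ => (1 - x / K) ^ (2 * m)) T :=
      cfc_nonneg (fun x _ => by
        rw [pow_mul]
        positivity)
    have h2 := (ContinuousLinearMap.nonneg_iff_isPositive _).mp h1
    exact h2.re_inner_nonneg_right (e i)
  rw [Metric.tendsto_atTop]
  intro ε hε
  obtain ⟨δ, hδ, hb⟩ := bump_small e (fun i => (he i).le) T hT hinj (ε := ε / 8) (by positivity)
  set ρ := max 0 (1 - δ / (2 * K)) with hρ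
  have hρ0 : 0 ≤ ρ := le_max_left _ _
  have hρ1 : ρ < 1 := by
    rw [hρ, max_lt_iff]
    refine ⟨zero_lt_one, ?_⟩
    have : 0 < δ / (2 * K) := by positivity
    linarith
  have hlim : Filter.Tendsto (fun m : ℕ => (r : ℝ) * (ρ ^ 2) ^ m) Filter.atTop (𝓝 (r * 0)) := by
    apply Filter.Tendsto.const_mul
    apply tendsto_pow_atTop_nhds_zero_of_lt_one (by positivity)
    nlinarith
  rw [mul_zero] at hlim
  obtain ⟨M, hM⟩ := (Metric.tendsto_atTop.mp hlim) (ε / 8) (by positivity)
  refine ⟨M, fun m hm => ?_⟩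
  rw [Real.dist_eq, sub_zero, abs_of_nonneg (hpos m)]
  have h1 : traceVal e T (fun x => (1 - x / K) ^ (2 * m))
      ≤ traceVal e T (fun x => 2 * bump δ x + ρ ^ (2 * m)) := by
    apply traceVal_mono e T hT hTK (by fun_prop) (by have := bump_continuous δ; fun_prop)
    intro x hx
    exact pow_le_affine hK hδ m hx
  rw [traceVal_affine e he T hT] at h1
  have h2 := hM m hm
  rw [Real.dist_eq, sub_zero] at h2
  have h3 := (le_abs_self _).trans_lt h2
  rw [← pow_mul] at h3
  linarith

end general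

/-- The trace of a matrix over the integral group ring. -/
def trZ {G : Type} [Group G] {r : ℕ} (S : Matrix (Fin r) (Fin r) (MonoidAlgebra ℤ G)) : ℤ :=
  ∑ a, (S a a).coeff 1

theorem toQ_one {G : Type} [Group G] {r : ℕ} :
    (1 : Matrix (Fin r) (Fin r) (MonoidAlgebra ℤ G)).map toQ = 1 := by
  have : (toQ : MonoidAlgebra ℤ G → MonoidAlgebra ℚ G)
    = MonoidAlgebra.mapRingHom G (Int.castRingHom ℚ) := rfl
  rw [this]
  exact Matrix.map_one _ (map_zero _) (map_one _)

theorem toQ_pow {G : Type} [Group G] {r : ℕ} (S : Matrix (Fin r) (Fin r) (MonoidAlgebra ℤ G)) (k : ℕ) :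
    (S ^ k).map toQ = (S.map toQ) ^ k := by
  induction k with
  | zero => rw [pow_zero, pow_zero, toQ_one]
  | succ k ih => rw [pow_succ, pow_succ, toQ_mul, ih]

theorem trc_eq {G : Type} [Group G] {r : ℕ} (S : Matrix (Fin r) (Fin r) (MonoidAlgebra ℤ G)) (k : ℕ) :
    trc ((S.map toQ) ^ k) = (trZ (S ^ k) : ℝ) := by
  rw [← toQ_pow]
  unfold trc trZ
  push_cast
  apply Finset.sum_congr rfl
  intro i _
  rw [Matrix.map_apply, toQ_coeff]
  push_cast
  rfl

/-- The polynomial `(1 - x / K) ^ (2 m)`. -/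
def P (K : ℝ) (m : ℕ) : ℝ[X] := (1 - C (1 / K) * X) ^ (2 * m)

theorem P_eval (K : ℝ) (m : ℕ) (x : ℝ) : (P K m).eval x = (1 - x / K) ^ (2 * m) := by
  simp [P]
  ring

theorem P_coeff_zero (K : ℝ) (m : ℕ) : (P K m).coeff 0 = 1 := by
  rw [Polynomial.coeff_zero_eq_eval_zero, P_eval]
  simp

section lap

theorem oneWay_nonneg {H L : Type} [NormedAddCommGroup H] [InnerProductSpace ℂ H] [CompleteSpace H]
    [NormedAddCommGroup L] [InnerProductSpace ℂ L] [CompleteSpace L] (B : L →L[ℂ] H) :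
    0 ≤ oneWay B := by
  have h := adjoint_comp_nonneg B.adjoint
  rw [ContinuousLinearMap.adjoint_adjoint] at h
  exact h

theorem laplacian_nonneg {G : Type} [Group G] (C : FreeCx G) (n : ℕ) : 0 ≤ C.laplacian n := by
  cases n with
  | zero => exact oneWay_nonneg _
  | succ n => exact add_nonneg (oneWay_nonneg _) (adjoint_comp_nonneg _)

theorem lap_pkg {G : Type} [Group G] (C : FreeCx G) (n : ℕ) :
    0 ≤ rMul ((C.lapM n).map toQ) ∧ ∀ (_ : S_INJ) (_ : C.l2betti n = 0) v,
      rMul ((C.lapM n).map toQ) v = 0 → v = 0 := by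
  rw [← C.laplacian_eq n]
  exact ⟨laplacian_nonneg C n, fun h3 hC v => h3 G C n hC v⟩

end lap

/-- The piece EUL. -/
theorem main (h1 : S_STR) (h2 : S_TRL) (h3 : S_INJ) : S_EUL := by
  intro G _ C hC
  classical
  obtain ⟨T, hTdef⟩ : ∃ T : ∀ n, Matrix (Fin (C.toFree.rank n)) (Fin (C.toFree.rank n)) (MonoidAlgebra ℚ G),
      ∀ n, T n = (C.toFree.lapM n).map toQ := ⟨fun n => (C.toFree.lapM n).map toQ, fun n => rfl⟩
  have hnn : ∀ n, 0 ≤ rMul (T n) := by
    intro n
    rw [hTdef]
    exact (lap_pkg C.toFree n).1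
  have hinj : ∀ n v, rMul (T n) v = 0 → v = 0 := by
    intro n
    rw [hTdef]
    exact (lap_pkg C.toFree n).2 h3 (hC n)
  set K : ℝ := 1 + ∑ n ∈ Finset.range (C.toFree.dim + 1), ‖rMul (T n)‖ with hKdef
  have hK : 0 < K := by
    have : 0 ≤ ∑ n ∈ Finset.range (C.toFree.dim + 1), ‖rMul (T n)‖ := Finset.sum_nonneg fun _ _ => norm_nonneg _
    linarith
  have hTK : ∀ n ∈ Finset.range (C.toFree.dim + 1), ‖rMul (T n)‖ ≤ K := by
    intro n hn
    have := Finset.single_le_sum (f := fun n => ‖rMul (T n)‖) (fun _ _ => norm_nonneg _) hn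
    rw [hKdef]
    linarith
  -- the Euler characteristic is the alternating sum of the traces
  have key : ∀ m : ℕ, ∑ n ∈ Finset.range (C.toFree.dim + 1),
      (-1) ^ n * traceVal unitVec (rMul (T n)) (fun x => (1 - x / K) ^ (2 * m))
      = ((∑ i : C.ι, ((-1) ^ C.deg i : ℤ) : ℤ) : ℝ) := by
    intro m
    have e1 : ∀ n, traceVal unitVec (rMul (T n)) (fun x => (1 - x / K) ^ (2 * m))
        = ∑ k ∈ Finset.range ((P K m).natDegree + 1),
          (P K m).coeff k * ((∑ i : C.ι, if C.deg i = n then mom C k i else 0 : ℤ) : ℝ) := by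
      intro n
      have : (fun x : ℝ => (1 - x / K) ^ (2 * m)) = fun x => (P K m).eval x := by
        funext x
        rw [P_eval]
      rw [this, traceVal_poly (T n) (hnn n)]
      apply Finset.sum_congr rfl
      intro k _
      rw [hTdef, trc_eq, ← h2 G C n k]
      rfl
    simp_rw [e1, Finset.mul_sum]
    rw [Finset.sum_comm]
    have e2 : ∀ k ∈ Finset.range ((P K m).natDegree + 1), ∑ n ∈ Finset.range (C.toFree.dim + 1),
        (-1) ^ n * ((P K m).coeff k * ((∑ i : C.ι, if C.deg i = n then mom C k i else 0 : ℤ) : ℝ))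
        = (P K m).coeff k * ((∑ i : C.ι, (-1) ^ C.deg i * mom C k i : ℤ) : ℝ) := by
      intro k _
      push_cast
      simp_rw [Finset.mul_sum]
      rw [Finset.sum_comm]
      apply Finset.sum_congr rfl
      intro i _
      rw [Finset.sum_eq_single (C.deg i)]
      · rw [if_pos rfl]
        ring
      · intro n _ hn
        rw [if_neg hn.symm]
        simp
      · intro hn
        exfalso
        apply hn
        rw [Finset.mem_range, Nat.lt_succ_iff]
        exact Finset.le_sup (f := C.deg) (Finset.mem_univ i)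
    rw [Finset.sum_congr rfl e2, Finset.sum_eq_single 0]
    · rw [P_coeff_zero, one_mul]
      congr 1
      apply Finset.sum_congr rfl
      intro i _
      have : mom C 0 i = 1 := by
        unfold mom
        rw [pow_zero, Matrix.one_apply_eq, MonoidAlgebra.one_def]
        simp
      rw [this, mul_one]
    · intro k _ hk
      rw [h1 G C k (Nat.one_le_iff_ne_zero.mpr hk)]
      simp
    · intro h
      exact absurd (Finset.mem_range.mpr (Nat.succ_pos _)) h
  have hlim : Filter.Tendsto (fun m : ℕ => ∑ n ∈ Finset.range (C.toFree.dim + 1),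
      (-1) ^ n * traceVal unitVec (rMul (T n)) (fun x => (1 - x / K) ^ (2 * m))) Filter.atTop (𝓝 0) := by
    have : (0 : ℝ) = ∑ n ∈ Finset.range (C.toFree.dim + 1), (-1) ^ n * 0 := by simp
    rw [this]
    apply tendsto_finsetSum
    intro n hn
    apply Filter.Tendsto.const_mul
    exact tendsto_trace unitVec norm_unitVec _ (hnn n) (hinj n) hK (hTK n hn)
  simp_rw [key] at hlim
  have := tendsto_nhds_unique hlim tendsto_const_nhds
  exact_mod_cast this.symm

end Run7.h329.LT.EUL
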