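import Pool.Agent.Run7.h636.LT.Iface

/-! Piece INJ of the project LT (helper636). -/

set_option autoImplicit false

open scoped InnerProductSpace

noncomputable section

namespace Run7.h329.LT.INJ

open Pool.Agent.N496.LT Pool.Agent.TH630.Tor Pool.Agent.Helper993.FK Pool.Agent.Helper993.Delta

/-- If the von Neumann dimension of the kernel of a right multiplication vanishes then it is injective. -/
theorem inj_of_dimKer {G : Type} [Group G] {r : ℕ} (A : Matrix (Fin r) (Fin r) (MonoidAlgebra ℚ G))
    (h : dimKer (rMul A) = 0) : ∀ v, rMul A v = 0 → v = 0 := by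
  have key : ∀ (w : L2Pow G r) (j : Fin r), rMul A w = 0 → coord w j 1 = 0 := by
    intro w j hw
    have hP : ∀ i : Fin r, (⟪(unitVec i : L2Pow G r), (rMul A).ker.starProjection (unitVec i)⟫_ℂ).re
        = ‖(rMul A).ker.starProjection (unitVec i : L2Pow G r)‖ ^ 2 := by
      intro i
      have e1 : (rMul A).ker.starProjection ((rMul A).ker.starProjection (unitVec i : L2Pow G r))
          = (rMul A).ker.starProjection (unitVec i : L2Pow G r) :=
        Submodule.starProjection_eq_self_iff.mpr (Submodule.starProjection_apply_mem _ _)
      have e2 := Submodule.inner_starProjection_left_eq_right (rMul A).ker (unitVec i : L2Pow G r)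
        ((rMul A).ker.starProjection (unitVec i : L2Pow G r))
      rw [e1] at e2
      refine (congrArg Complex.re e2.symm).trans ?_
      exact (norm_sq_eq_re_inner (𝕜 := ℂ) _).symm
    have h0 : ∑ i : Fin r, ‖(rMul A).ker.starProjection (unitVec i : L2Pow G r)‖ ^ 2 = 0 := by
      rw [← h]
      unfold dimKer
      exact Finset.sum_congr rfl fun i _ => (hP i).symm
    have h1 : ‖(rMul A).ker.starProjection (unitVec j : L2Pow G r)‖ ^ 2 = 0 :=
      (Finset.sum_eq_zero_iff_of_nonneg fun i _ => by positivity).mp h0 j (Finset.mem_univ j)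
    have h2 : (rMul A).ker.starProjection (unitVec j : L2Pow G r) = 0 := by
      rw [← norm_eq_zero]
      exact pow_eq_zero_iff (two_ne_zero) |>.mp h1
    have h3 : (rMul A).ker.starProjection w = w :=
      Submodule.starProjection_eq_self_iff.mpr (LinearMap.mem_ker.mpr hw)
    have h4 := Submodule.inner_starProjection_left_eq_right (rMul A).ker (unitVec j : L2Pow G r) w
    rw [h2, h3] at h4
    refine (inner_unitVec j w).symm.trans ?_
    refine (Eq.symm h4).trans ?_
    exact inner_zero_left (𝕜 := ℂ) w
  intro w hw
  apply coord_ext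
  intro j g
  rw [coord_zero]
  obtain ⟨w', hw'⟩ := exists_translate w g
  have h1 : rMul A w' = 0 := by
    apply coord_ext
    intro k h
    rw [coord_zero, rMul_apply]
    have := congrArg (fun x => coord x k (g * h)) hw
    simp only [coord_zero, rMul_apply] at this
    rw [← this]
    simp only [hw', mul_assoc]
  have h2 := key w' j h1
  rwa [hw', mul_one] at h2

/-- The piece INJ. -/
theorem main : Run7.h636.LT.S_INJ := by
  intro G _ C n h
  unfold FreeCx.l2betti at h
  rw [C.laplacian_eq n] at h ⊢
  exact inj_of_dimKer _ h

end Run7.h329.LT.INJ
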