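import Pool.Agent.Run7.h636.LT.Iface

/-! Piece RFD of the project LT (helper636). -/

set_option autoImplicit false

noncomputable section

namespace Run7.h329.LT.RFD

open Pool.Agent.N496.LT Pool.Agent.TH630.Tor Pool.Agent.Helper993.FK

/-- The piece RFD. -/
theorem main : Run7.h636.LT.S_RFD := by
  intro G _ hG r A hA
  obtain ⟨N, hN, hfin, hanti, hinf⟩ := hG
  by_cases hr : r = 0
  · exact fkDet_pos_of_eq_zero hr _
  · have : NeZero r := ⟨hr⟩
    have hf : ∀ i, Finite (G ⧸ N i) := fun i => by
      have := hfin i
      infer_instance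
    exact fkDet_pos N hanti hinf A hA

end Run7.h329.LT.RFD
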